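import Pool.Agent.Helper34.PU.Goals2
import Pool.Agent.Helper27.PU.BALL

/-!
MP_8060f4_co : the case Δ = 2 of the covers (packet RC2).
-/

set_option autoImplicit false

open Finset Function
open scoped Classical

namespace Pool.Agent.Helper59.PU

open Pool.Agent.Helper34.PU

/-! ### At most two paths -/

/-- the other neighbour of `y` -/
noncomputable def nxt {V : Type} (H : SimpleGraph V) (v y : V) : V :=
  if h : ∃ z, z ≠ v ∧ H.Adj y z then h.choose else v

/-- the only continuation of the path `v y` with `K` further vertices -/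
noncomputable def ext {V : Type} (H : SimpleGraph V) : ℕ → V → V → List V
  | 0, _, _ => []
  | K + 1, v, y => nxt H v y :: ext H K y (nxt H v y)

theorem nxt_eq {V : Type} [Fintype V] (H : SimpleGraph V) (hD : MaxDeg H 2) {v y z : V}
    (hvy : H.Adj v y) (hz : H.Adj y z) (hne : z ≠ v) : z = nxt H v y := by
  have h : ∃ z, z ≠ v ∧ H.Adj y z := ⟨z, hne, hz⟩
  have h1 : nxt H v y ≠ v ∧ H.Adj y (nxt H v y) := by
    unfold nxt
    rw [dif_pos h]
    exact h.choose_spec
  by_contra hc
  have h3 : ({v, z, nxt H v y} : Finset V) ⊆ nbr H y := by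
    intro t ht
    simp only [mem_insert, mem_singleton] at ht
    simp only [nbr, mem_filter, mem_univ, true_and]
    rcases ht with h | h | h
    · rw [h]
      exact hvy.symm
    · rw [h]
      exact hz
    · rw [h]
      exact h1.2
  have h4 := (card_le_card h3).trans (hD y)
  rw [card_eq_three.2 ⟨v, z, nxt H v y, hne.symm, h1.1.symm, hc, rfl⟩] at h4
  omega

theorem ext_eq {V : Type} [Fintype V] (H : SimpleGraph V) (hD : MaxDeg H 2) (K : ℕ) :
    ∀ (v y : V) (l : List V), (v :: y :: l).Nodup → l.length = K →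
      (v :: y :: l).IsChain H.Adj → l = ext H K v y := by
  induction K with
  | zero =>
    intro v y l _ h2 _
    rw [List.length_eq_zero_iff] at h2
    rw [h2]
    rfl
  | succ K ih =>
    intro v y l h1 h2 h3
    cases l with
    | nil => simp at h2
    | cons z l =>
      rw [List.isChain_cons_cons] at h3
      have h4 := h3.2
      rw [List.isChain_cons_cons] at h4
      have hz : z ≠ v := by
        intro h
        rw [List.nodup_cons] at h1
        apply h1.1
        simp [h]
      have e := nxt_eq H hD h3.1 h4.1 hz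
      have h5 := ih y z l (List.nodup_cons.1 h1).2 (by simpa using h2) h3.2
      show z :: l = nxt H v y :: ext H K y (nxt H v y)
      rw [← e, ← h5]

theorem p2 : P2Stmt := by
  intro V _ H hD K v
  refine ⟨(nbr H v).image (fun y => v :: y :: ext H K v y), card_image_le.trans (hD v), ?_⟩
  intro l h1 h2 h3 h4
  match l, h1, h2, h3, h4 with
  | [], _, h2, _, _ => simp at h2
  | [a], _, h2, _, _ => simp at h2
  | a :: y :: l, h1, h2, h3, h4 =>
    have ha : a = v := by simpa using h3
    subst ha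
    have h5 := ext_eq H hD K a y l h1 (by simpa using h2) h4
    rw [List.isChain_cons_cons] at h4
    rw [mem_image]
    refine ⟨y, ?_, by rw [← h5]⟩
    simp only [nbr, mem_filter, mem_univ, true_and]
    exact h4.1

/-! ### The random graph -/

/-- the graph of the sample -/
def Hw {V : Type} (H : SimpleGraph V) {m : ℕ} (ω : V → Fin (m + 1)) : SimpleGraph V where
  Adj a b := H.Adj a b ∧ ω a ≠ 0 ∧ ω b ≠ 0
  symm := ⟨fun _ _ h => ⟨h.1.symm, h.2.2, h.2.1⟩⟩
  loopless := ⟨fun _ h => h.1.ne rfl⟩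

theorem Hw_le {V : Type} (H : SimpleGraph V) {m : ℕ} (ω : V → Fin (m + 1)) : Hw H ω ≤ H :=
  fun _ _ h => h.1

/-- the component of `v` -/
noncomputable def comp {V : Type} [Fintype V] (H : SimpleGraph V) {m : ℕ} (ω : V → Fin (m + 1))
    (v : V) : Finset V :=
  univ.filter (fun b => (Hw H ω).Reachable v b)

/-- the piece of `v` -/
noncomputable def pce {V : Type} [Fintype V] (H : SimpleGraph V) {m : ℕ} (K : ℕ)
    (ω : V → Fin (m + 1)) (v : V) : Finset V :=
  if K < (comp H ω v).card then {v} else comp H ω v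

section
variable {V : Type} [Fintype V] (H : SimpleGraph V) {m : ℕ}

theorem mem_comp (ω : V → Fin (m + 1)) (v b : V) :
    b ∈ comp H ω v ↔ (Hw H ω).Reachable v b := by
  simp [comp]

theorem comp_eq (ω : V → Fin (m + 1)) {u v : V} (h : u ∈ comp H ω v) :
    comp H ω u = comp H ω v := by
  rw [mem_comp] at h
  ext b
  rw [mem_comp, mem_comp]
  exact ⟨fun k => h.trans k, fun k => h.symm.trans k⟩

theorem self_mem (K : ℕ) (ω : V → Fin (m + 1)) (v : V) : v ∈ pce H K ω v := by
  unfold pce
  split_ifs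
  · exact mem_singleton_self v
  · rw [mem_comp]

theorem pce_eq (K : ℕ) (ω : V → Fin (m + 1)) {u v : V} (h : u ∈ pce H K ω v) :
    pce H K ω u = pce H K ω v := by
  unfold pce at h
  split_ifs at h with h1
  · rw [mem_singleton.1 h]
  · unfold pce
    rw [comp_eq H ω h]
    rw [if_neg h1, if_neg h1]

theorem pce_comm (K : ℕ) (ω : V → Fin (m + 1)) {u v : V} (h : u ∈ pce H K ω v) :
    v ∈ pce H K ω u := by
  rw [pce_eq H K ω h]
  exact self_mem H K ω v

theorem pce_card (K : ℕ) (hK : 1 ≤ K) (ω : V → Fin (m + 1)) (v : V) :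
    (pce H K ω v).card ≤ K := by
  unfold pce
  split_ifs with h1
  · rw [card_singleton]
    exact hK
  · exact not_lt.1 h1

theorem pce_walk (K : ℕ) (ω : V → Fin (m + 1)) (v a b : V) (ha : a ∈ pce H K ω v)
    (hb : b ∈ pce H K ω v) : ∃ p : H.Walk a b, p.length ≤ K := by
  unfold pce at ha hb
  split_ifs at ha hb with h1
  · rw [mem_singleton] at ha hb
    subst ha
    subst hb
    exact ⟨SimpleGraph.Walk.nil, by simp⟩
  · have hab : (Hw H ω).Reachable a b := by
      rw [mem_comp] at ha hb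
      exact ha.symm.trans hb
    obtain ⟨p, hp⟩ := hab.exists_isPath
    refine ⟨p.mapLe (Hw_le H ω), ?_⟩
    rw [SimpleGraph.Walk.length_map]
    have hs : p.support.toFinset ⊆ comp H ω v := by
      intro t ht
      rw [List.mem_toFinset] at ht
      rw [← comp_eq H ω ha, mem_comp]
      exact ⟨p.takeUntil t ht⟩
    have h2 := card_le_card hs
    rw [List.toFinset_card_of_nodup hp.support_nodup, SimpleGraph.Walk.length_support] at h2
    omega

omit [Fintype V] in
theorem supp_ne (ω : V → Fin (m + 1)) {a b : V} (p : (Hw H ω).Walk a b) :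
    ω a ≠ 0 → ∀ v ∈ p.support, ω v ≠ 0 := by
  induction p with
  | nil =>
    intro h v hv
    rw [SimpleGraph.Walk.support_nil, List.mem_singleton] at hv
    rw [hv]
    exact h
  | cons h q ih =>
    intro ha v hv
    rw [SimpleGraph.Walk.support_cons, List.mem_cons] at hv
    rcases hv with rfl | hv
    · exact ha
    · exact ih h.2.2 v hv

/-- a vertex in a big component starts a long path -/
theorem big_path (hD : MaxDeg H 2) (k : ℕ) (ω : V → Fin (m + 1)) (a : V)
    (hb : 3 ^ (k + 1) < (comp H ω a).card) :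
    ∃ l : List V, l.Nodup ∧ l.length = k + 2 ∧ l.head? = some a ∧ l.IsChain H.Adj ∧
      ∀ v ∈ l, ω v ≠ 0 := by
  have hball := Pool.Agent.Helper27.PU.ball V H 2 (k + 1) a hD
  have hex : ∃ e ∈ comp H ω a, e ∉ univ.filter (fun b => ∃ p : H.Walk a b, p.length ≤ k + 1) := by
    by_contra hc
    push Not at hc
    have h1 := card_le_card (show comp H ω a ⊆ _ from hc)
    rw [show (2 + 1 : ℕ) = 3 by norm_num] at hball
    omega
  obtain ⟨e, he1, he2⟩ := hex
  rw [mem_comp] at he1
  obtain ⟨p, hp⟩ := he1.exists_isPath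
  have hlen : k + 1 < p.length := by
    by_contra hc
    apply he2
    rw [mem_filter]
    exact ⟨mem_univ _, p.mapLe (Hw_le H ω), by rw [SimpleGraph.Walk.length_map]; omega⟩
  have hch : p.support.IsChain (Hw H ω).Adj := p.isChain_adj_support
  refine ⟨p.support.take (k + 2), hp.support_nodup.sublist (List.take_sublist _ _), ?_, ?_, ?_, ?_⟩
  · rw [List.length_take, SimpleGraph.Walk.length_support]
    omega
  · cases p with
    | nil => simp at hlen
    | cons h q => simp
  · exact (hch.take (k + 2)).imp (fun _ _ h => h.1)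
  · intro v hv
    have hv' : v ∈ p.support := List.mem_of_mem_take hv
    have ha : ω a ≠ 0 := by
      cases p with
      | nil => simp at hlen
      | cons h q => exact h.2.1
    exact supp_ne H ω p ha v hv'

/-- counting samples which do not vanish on a list -/
theorem count (l : List V) (hl : l.Nodup) :
    ((univ.filter (fun ω : V → Fin (m + 1) => ∀ v ∈ l, ω v ≠ 0)).card : ℝ) =
      (1 - 1 / ((m : ℝ) + 1)) ^ l.length * (Fintype.card (V → Fin (m + 1)) : ℝ) := by
  have h1 : univ.filter (fun ω : V → Fin (m + 1) => ∀ v ∈ l, ω v ≠ 0) =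
      Fintype.piFinset (fun v => if v ∈ l then univ.erase 0 else univ) := by
    ext ω
    rw [mem_filter, Fintype.mem_piFinset]
    refine ⟨fun h v => ?_, fun h => ⟨mem_univ _, fun v hv => ?_⟩⟩
    · split_ifs with hv
      · exact mem_erase.2 ⟨h.2 v hv, mem_univ _⟩
      · exact mem_univ _
    · have := h v
      rw [if_pos hv] at this
      exact (mem_erase.1 this).1
  rw [h1, Fintype.card_piFinset, Fintype.card_fun, Fintype.card_fin]
  have h2 : ∀ v : V, ((if v ∈ l then (univ : Finset (Fin (m + 1))).erase 0 else univ).card : ℝ) =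
      (if v ∈ l then (1 - 1 / ((m : ℝ) + 1)) else 1) * ((m : ℝ) + 1) := by
    intro v
    have hm : (m : ℝ) + 1 ≠ 0 := by positivity
    split_ifs with hv
    · rw [card_erase_of_mem (mem_univ _), card_univ, Fintype.card_fin]
      rw [Nat.add_sub_cancel]
      field_simp
      ring
    · rw [card_univ, Fintype.card_fin]
      push_cast
      ring
  push_cast
  rw [prod_congr rfl (fun v _ => h2 v), prod_mul_distrib, prod_const, card_univ,
    prod_ite, prod_const, prod_const_one, mul_one]
  have h3 : (univ.filter (fun v => v ∈ l)).card = l.length := by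
    rw [← List.toFinset_card_of_nodup hl]
    congr 1
    ext v
    simp
  rw [h3]

/-- the probability of a cut edge -/
theorem cut_prob (hD : MaxDeg H 2) (k : ℕ) (a b : V) (hab : H.Adj a b) :
    ((univ.filter (fun ω : V → Fin (m + 1) => b ∉ pce H (3 ^ (k + 1)) ω a)).card : ℝ) ≤
      (2 / ((m : ℝ) + 1) + 2 * (1 - 1 / ((m : ℝ) + 1)) ^ (k + 2)) *
        (Fintype.card (V → Fin (m + 1)) : ℝ) := by
  obtain ⟨S, hS1, hS2⟩ := p2 V H hD k a
  set N : ℝ := (Fintype.card (V → Fin (m + 1)) : ℝ) with hN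
  have hq : 0 ≤ 1 - 1 / ((m : ℝ) + 1) := by
    rw [sub_nonneg, div_le_one (by positivity)]
    have : (0 : ℝ) ≤ m := Nat.cast_nonneg m
    linarith
  -- the single zeros
  have hz : ∀ c : V, ((univ.filter (fun ω : V → Fin (m + 1) => ω c = 0)).card : ℝ) =
      1 / ((m : ℝ) + 1) * N := by
    intro c
    have h1 := count (m := m) [c] (List.nodup_singleton c)
    have h2 := card_filter_add_card_filter_not (s := (univ : Finset (V → Fin (m + 1))))
      (fun ω : V → Fin (m + 1) => ω c = 0)
    have h3 : univ.filter (fun ω : V → Fin (m + 1) => ∀ v ∈ [c], ω v ≠ 0) =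
        univ.filter (fun ω : V → Fin (m + 1) => ¬ ω c = 0) := by
      ext ω
      simp
    rw [h3] at h1
    have h4 : ((univ.filter (fun ω : V → Fin (m + 1) => ω c = 0)).card : ℝ) +
        ((univ.filter (fun ω : V → Fin (m + 1) => ¬ ω c = 0)).card : ℝ) = N := by
      rw [hN, ← card_univ]
      exact_mod_cast h2
    rw [h1, List.length_singleton, pow_one] at h4
    linarith
  have hsub : univ.filter (fun ω : V → Fin (m + 1) => b ∉ pce H (3 ^ (k + 1)) ω a) ⊆
      (univ.filter (fun ω : V → Fin (m + 1) => ω a = 0) ∪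
        univ.filter (fun ω : V → Fin (m + 1) => ω b = 0)) ∪
      (S.filter (fun l => l.Nodup ∧ l.length = k + 2)).biUnion
        (fun l => univ.filter (fun ω : V → Fin (m + 1) => ∀ v ∈ l, ω v ≠ 0)) := by
    intro ω hω
    rw [mem_filter] at hω
    rw [mem_union, mem_union, mem_filter, mem_filter, mem_biUnion]
    by_cases h1 : ω a = 0
    · exact Or.inl (Or.inl ⟨mem_univ _, h1⟩)
    by_cases h2 : ω b = 0
    · exact Or.inl (Or.inr ⟨mem_univ _, h2⟩)
    right
    have h3 : 3 ^ (k + 1) < (comp H ω a).card := by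
      by_contra hc
      apply hω.2
      unfold pce
      rw [if_neg hc, mem_comp]
      exact SimpleGraph.Adj.reachable (G := Hw H ω) ⟨hab, h1, h2⟩
    obtain ⟨l, l1, l2, l3, l4, l5⟩ := big_path H hD k ω a h3
    exact ⟨l, mem_filter.2 ⟨hS2 l l1 l2 l3 l4, l1, l2⟩, mem_filter.2 ⟨mem_univ _, l5⟩⟩
  have h1 := (card_le_card hsub).trans ((card_union_le _ _).trans
    (Nat.add_le_add_right (card_union_le _ _) _))
  have h2 : ((((S.filter (fun l => l.Nodup ∧ l.length = k + 2)).biUnion
        (fun l => univ.filter (fun ω : V → Fin (m + 1) => ∀ v ∈ l, ω v ≠ 0))).card : ℕ) : ℝ) ≤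
      2 * ((1 - 1 / ((m : ℝ) + 1)) ^ (k + 2) * N) := by
    have h3 : ((((S.filter (fun l => l.Nodup ∧ l.length = k + 2)).biUnion
        (fun l => univ.filter (fun ω : V → Fin (m + 1) => ∀ v ∈ l, ω v ≠ 0))).card : ℕ) : ℝ) ≤
        ∑ l ∈ S.filter (fun l => l.Nodup ∧ l.length = k + 2),
          ((univ.filter (fun ω : V → Fin (m + 1) => ∀ v ∈ l, ω v ≠ 0)).card : ℝ) := by
      exact_mod_cast card_biUnion_le
    refine h3.trans ?_
    have h4 : ∀ l ∈ S.filter (fun l => l.Nodup ∧ l.length = k + 2),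
        ((univ.filter (fun ω : V → Fin (m + 1) => ∀ v ∈ l, ω v ≠ 0)).card : ℝ) =
          (1 - 1 / ((m : ℝ) + 1)) ^ (k + 2) * N := by
      intro l hl
      rw [mem_filter] at hl
      rw [count l hl.2.1, hl.2.2]
    rw [sum_congr rfl h4, sum_const, nsmul_eq_mul]
    have h5 : ((S.filter (fun l => l.Nodup ∧ l.length = k + 2)).card : ℝ) ≤ 2 := by
      exact_mod_cast (card_filter_le _ _).trans hS1
    refine mul_le_mul_of_nonneg_right h5 ?_
    have : 0 ≤ N := by rw [hN]; positivity
    positivity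
  have h3 : ((univ.filter (fun ω : V → Fin (m + 1) => b ∉ pce H (3 ^ (k + 1)) ω a)).card : ℝ) ≤
      ((univ.filter (fun ω : V → Fin (m + 1) => ω a = 0)).card : ℝ) +
      ((univ.filter (fun ω : V → Fin (m + 1) => ω b = 0)).card : ℝ) +
      ((((S.filter (fun l => l.Nodup ∧ l.length = k + 2)).biUnion
        (fun l => univ.filter (fun ω : V → Fin (m + 1) => ∀ v ∈ l, ω v ≠ 0))).card : ℕ) : ℝ) := by
    exact_mod_cast h1
  rw [hz a, hz b] at h3
  have h4 : (2 / ((m : ℝ) + 1) + 2 * (1 - 1 / ((m : ℝ) + 1)) ^ (k + 2)) * N =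
      1 / ((m : ℝ) + 1) * N + 1 / ((m : ℝ) + 1) * N +
        2 * ((1 - 1 / ((m : ℝ) + 1)) ^ (k + 2) * N) := by ring
  rw [h4]
  linarith

/-- the cover -/
theorem cover (hD : MaxDeg H 2) (m k : ℕ) (σ η : ℝ) (h0 : 0 < σ) (h1 : σ ≤ 1)
    (hη : 2 / ((m : ℝ) + 1) + 2 * (1 - 1 / ((m : ℝ) + 1)) ^ (k + 2) ≤ η) :
    RealCover H (3 ^ (k + 1)) σ η := by
  have hK : 1 ≤ 3 ^ (k + 1) := Nat.one_le_pow _ _ (by norm_num)
  set N : ℝ := (Fintype.card (V → Fin (m + 1)) : ℝ) with hN
  have hNpos : 0 < N := by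
    rw [hN]
    exact_mod_cast Fintype.card_pos
  have hc : ∀ (ω : V → Fin (m + 1)) (v : V), (0 : ℝ) < ((pce H (3 ^ (k + 1)) ω v).card : ℝ) := by
    intro ω v
    exact_mod_cast card_pos.2 ⟨v, self_mem H _ ω v⟩
  -- loads of sums over pieces
  have key : ∀ (ω : V → Fin (m + 1)) (a : V) (Q : Prop),
      (∑ u, if (a ∈ pce H (3 ^ (k + 1)) ω u ∧ Q) then
        σ / (N * ((pce H (3 ^ (k + 1)) ω u).card : ℝ)) else 0) =
        if Q then σ / N else 0 := by
    intro ω a Q
    by_cases hQ : Q
    · simp only [hQ, and_true, if_true]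
      rw [← sum_filter]
      have e1 : univ.filter (fun u => a ∈ pce H (3 ^ (k + 1)) ω u) = pce H (3 ^ (k + 1)) ω a := by
        ext u
        simp only [mem_filter, mem_univ, true_and]
        exact ⟨fun h => pce_comm H _ ω h, fun h => pce_comm H _ ω h⟩
      rw [e1]
      rw [sum_congr rfl (fun u hu => by rw [pce_eq H _ ω hu]), sum_const, nsmul_eq_mul]
      have := hc ω a
      field_simp
    · simp [hQ]
  refine ⟨((V → Fin (m + 1)) × V) ⊕ V, inferInstance,
    Sum.elim (fun p => σ / (N * ((pce H (3 ^ (k + 1)) p.1 p.2).card : ℝ))) (fun _ => 1 - σ),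
    Sum.elim (fun p => pce H (3 ^ (k + 1)) p.1 p.2) (fun v => {v}), ?_, ?_, ?_, ?_, ?_⟩
  · rintro (p | v)
    · simp only [Sum.elim_inl]
      have := hc p.1 p.2
      positivity
    · simp only [Sum.elim_inr]
      linarith
  · rintro (p | v)
    · exact pce_card H _ hK p.1 p.2
    · simpa using hK
  · rintro (p | v) a ha b hb
    · exact pce_walk H _ p.1 p.2 a b ha hb
    · simp only [Sum.elim_inr, mem_singleton] at ha hb
      subst ha
      subst hb
      exact ⟨SimpleGraph.Walk.nil, by simp⟩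
  · intro v
    rw [Fintype.sum_sum_type, Fintype.sum_prod_type]
    have hA : (∑ ω : V → Fin (m + 1), ∑ u : V, if v ∈ pce H (3 ^ (k + 1)) ω u then
        σ / (N * ((pce H (3 ^ (k + 1)) ω u).card : ℝ)) else 0) = σ := by
      have e1 : ∀ ω : V → Fin (m + 1), (∑ u, if v ∈ pce H (3 ^ (k + 1)) ω u then
          σ / (N * ((pce H (3 ^ (k + 1)) ω u).card : ℝ)) else 0) = σ / N := by
        intro ω
        have := key ω v True
        simpa using this
      rw [sum_congr rfl (fun ω _ => e1 ω), sum_const, card_univ, nsmul_eq_mul, ← hN]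
      field_simp
    have hB : (∑ x : V, if v ∈ ({x} : Finset V) then (1 - σ) else 0) = 1 - σ := by
      rw [sum_eq_single v]
      · rw [if_pos (mem_singleton_self v)]
      · intro x _ hx
        rw [if_neg]
        rw [mem_singleton]
        exact hx.symm
      · intro h
        exact absurd (mem_univ v) h
    exact (congrArg₂ (· + ·) hA hB).trans (by ring)
  · intro a b hab
    rw [Fintype.sum_sum_type, Fintype.sum_prod_type]
    have hB : (∑ x : V, if a ∈ ({x} : Finset V) ∧ b ∈ ({x} : Finset V) then (1 - σ) else 0) =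
        0 := by
      refine sum_eq_zero fun x _ => ?_
      rw [if_neg]
      rintro ⟨h, h'⟩
      rw [mem_singleton] at h h'
      exact hab.ne (h.trans h'.symm)
    have e1 : ∀ ω : V → Fin (m + 1),
        (∑ u, if a ∈ pce H (3 ^ (k + 1)) ω u ∧ b ∈ pce H (3 ^ (k + 1)) ω u then
        σ / (N * ((pce H (3 ^ (k + 1)) ω u).card : ℝ)) else 0) =
        if b ∈ pce H (3 ^ (k + 1)) ω a then σ / N else 0 := by
      intro ω
      refine Eq.trans ?_ ((key ω a (b ∈ pce H (3 ^ (k + 1)) ω a)).trans ?_)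
      · refine sum_congr rfl fun u _ => ?_
        by_cases hu : a ∈ pce H (3 ^ (k + 1)) ω u
        · have hu' := pce_eq H _ ω hu
          by_cases hb : b ∈ pce H (3 ^ (k + 1)) ω u
          · rw [if_pos ⟨hu, hb⟩, if_pos ⟨hu, by rw [hu']; exact hb⟩]
          · rw [if_neg (fun h => hb h.2), if_neg (fun h => hb (by rw [← hu']; exact h.2))]
        · rw [if_neg (fun h => hu h.1), if_neg (fun h => hu h.1)]
      · by_cases hb : b ∈ pce H (3 ^ (k + 1)) ω a
        · rw [if_pos hb, if_pos hb]
        · rw [if_neg hb, if_neg hb]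
    have hA : (∑ ω : V → Fin (m + 1), ∑ u : V,
        if a ∈ pce H (3 ^ (k + 1)) ω u ∧ b ∈ pce H (3 ^ (k + 1)) ω u then
        σ / (N * ((pce H (3 ^ (k + 1)) ω u).card : ℝ)) else 0) =
        ((univ.filter (fun ω : V → Fin (m + 1) =>
        b ∈ pce H (3 ^ (k + 1)) ω a)).card : ℝ) * (σ / N) := by
      rw [sum_congr rfl (fun ω _ => e1 ω), ← sum_filter, sum_const, nsmul_eq_mul]
    have h2 := card_filter_add_card_filter_not (s := (univ : Finset (V → Fin (m + 1))))
      (fun ω : V → Fin (m + 1) => b ∈ pce H (3 ^ (k + 1)) ω a)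
    have h4 : ((univ.filter (fun ω : V → Fin (m + 1) =>
        b ∈ pce H (3 ^ (k + 1)) ω a)).card : ℝ) +
        ((univ.filter (fun ω : V → Fin (m + 1) =>
          ¬ b ∈ pce H (3 ^ (k + 1)) ω a)).card : ℝ) = N := by
      rw [hN, ← card_univ]
      exact_mod_cast h2
    have h5 := cut_prob H (m := m) hD k a b hab
    rw [← hN] at h5
    have h6 : (0 : ℝ) ≤ ((univ.filter (fun ω : V → Fin (m + 1) =>
          ¬ b ∈ pce H (3 ^ (k + 1)) ω a)).card : ℝ) := Nat.cast_nonneg _
    have fin : ∀ (X Y S : ℝ), X + Y = N → Y ≤ (2 / ((m : ℝ) + 1) +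
        2 * (1 - 1 / ((m : ℝ) + 1)) ^ (k + 2)) * N → 0 ≤ Y → S = X * (σ / N) + 0 →
        σ - η ≤ S ∧ S ≤ σ := by
      intro X Y S g1 g2 g3 g4
      have h7 : Y ≤ η * N := g2.trans (mul_le_mul_of_nonneg_right hη hNpos.le)
      have h8 : X = N - Y := by linarith
      have h9 : S = σ - σ * (Y / N) := by
        rw [g4, h8]
        field_simp
        ring
      rw [h9]
      have h10 : Y / N ≤ η := by
        rw [div_le_iff₀ hNpos]
        exact h7
      have h11 : 0 ≤ Y / N := div_nonneg g3 hNpos.le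
      constructor
      · have : σ * (Y / N) ≤ 1 * η := mul_le_mul h1 h10 h11 zero_le_one
        linarith
      · have : 0 ≤ σ * (Y / N) := mul_nonneg h0.le h11
        linarith
    exact fin _ _ _ h4 h5 h6 (congrArg₂ (· + ·) hA hB)

end

/-- packet RC2 -/
theorem rc2 : RC2Stmt := by
  intro η hη
  obtain ⟨m, hm⟩ := exists_nat_gt (4 / η)
  have hm0 : 2 / ((m : ℝ) + 1) ≤ η / 2 := by
    have h1 : 4 < m * η := by
      rwa [div_lt_iff₀ hη] at hm
    rw [div_le_div_iff₀ (by positivity) (by norm_num)]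
    nlinarith
  have hq0 : 0 ≤ 1 - 1 / ((m : ℝ) + 1) := by
    rw [sub_nonneg, div_le_one (by positivity)]
    have : (0 : ℝ) ≤ m := Nat.cast_nonneg m
    linarith
  have hq1 : 1 - 1 / ((m : ℝ) + 1) < 1 := by
    have : 0 < 1 / ((m : ℝ) + 1) := by positivity
    linarith
  obtain ⟨k, hk⟩ := exists_pow_lt_of_lt_one (show (0 : ℝ) < η / 4 by positivity) hq1
  refine ⟨3 ^ (k + 1), fun V _ H hD σ h0 h1 => cover H hD m k σ η h0 h1 ?_⟩
  have h2 : (1 - 1 / ((m : ℝ) + 1)) ^ (k + 2) ≤ (1 - 1 / ((m : ℝ) + 1)) ^ k :=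
    pow_le_pow_of_le_one hq0 hq1.le (by omega)
  linarith


end Pool.Agent.Helper59.PU
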